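import Pool.Agent.K3h48.QG.T4
import Pool.Agent.K3h49.QG.Convex

/-!
# Strong amenability and absolutely continuous convolution semigroups on the dual

Let `G` be a second countable locally compact quantum group with dual `Ĝ`. The data `D : Data A R M`
consist of the universal C*-algebra `A = C₀ᵘ(Ĝ)`, the reduced C*-algebra `R = C₀(Ĝ)`, the von
Neumann algebra `M = L^∞(Ĝ)`, the reducing morphism `Λ : A → R`, the inclusion `ι : R → M`, the
space `normal` of the normal functionals on `M`, the slice maps `slice ν = (id ⊗ ν) ∘ Δᵤ` of the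
comultiplication of `A`, and the counit `ε`. The convolution of `μ`, `ν` in the dual space of `A` is
`conv μ ν = (μ ⊗ ν) ∘ Δᵤ = μ ∘ slice ν`. The functional `ρ` is in `L¹(Ĝ)` (`InL1`) if
`ρ = ω ∘ ι ∘ Λ` for a normal functional `ω` on `M`.

`IsDual` collects the properties of these data which are used, and which are known for the duals of
all second countable locally compact quantum groups (Kustermans and Vaes; Kustermans for the
universal C*-algebra; Bédos and Tuset for the approximate identity): `Λ` is a surjective, `ι` an
injective homomorphism of C*-algebras, `ε` is a character of norm one; the slice maps are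
contractive, the convolution is associative with the unit `ε`, and preserves the states; `L¹(Ĝ)` is a
closed two-sided ideal of the dual space of `A`; the elements `(id ⊗ ρ)(Δᵤ(a))`, `ρ` in `L¹(Ĝ)`, span
a dense subspace of `A`; and if `Λ` is injective then `L¹(Ĝ)`, which is separable, has a sequential
two-sided approximate identity which consists of states.

`G` is strongly amenable if `Ĝ` is co-amenable, that is, if `Λ` is injective (`CoAmenable`).
`IsSemigroup μ` says that `μ t`, `t ≥ 0`, are states of `A` with `μ 0 = ε`,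
`μ s ⋆ μ t = μ (s + t)`, and that `μ t a` is a continuous function of `t ≥ 0` for all `a` in `A`.

**Theorem.** `G` is strongly amenable if and only if there is a `w*`-continuous convolution semigroup
of states `μ t` on `Ĝ` with `μ t` in `L¹(Ĝ)` for all `t > 0`. If `G` is strongly amenable then there
is such a semigroup which is moreover norm continuous for `t > 0`.

Proof. If there is such a semigroup and `Λ a = 0`, then for every functional `ν` on `A` the
functional `μ t ⋆ ν` is in the ideal `L¹(Ĝ)`, so `(μ t ⋆ ν)(a) = 0`, and for `t → 0` one gets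
`ν(a) = 0`; so `a = 0`. Conversely, let `ω_n` be a sequence of states in `L¹(Ĝ)` that is a two-sided
approximate identity of `L¹(Ĝ)`. After passing to a subsequence, chosen recursively, let
`Ω_N = ω_0 + ... + ω_{N-1}` and let `ω_N` be such that `(ω_N - ε) ⋆ Ω_N` and `Ω_N ⋆ (ω_N - ε)` are very
small. The Poisson semigroup `P_N(t) = exp (t (Ω_N - N ε))` consists of states, and
`P_N(t) - e^{-tN} ε` is in `L¹(Ĝ)`. As `Ω_N` and `ω_N - ε` nearly annihilate each other,
`P_{N+1}(t) - P_N(t)` is equal to `e^{-tN} (exp (t (ω_N - ε)) - ε)` up to an error of norm at most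
`2^{-N}` for `t ≤ N`. So for every `t > 0` the `P_N(t)` converge in norm, to a state `μ t` in
`L¹(Ĝ)`. For `ρ` in `L¹(Ĝ)` and `t ≤ 1` the norm of `(P_{N+1}(t) - P_N(t)) ⋆ ρ` is at most
`t e^{-tN} e² ‖(ω_N - ε) ⋆ ρ‖ + 2^{-N} ‖ρ‖`, and as the sum of the `t e^{-tN}` is at most `2` it
follows that `μ t ⋆ ρ` converges to `ρ` for `t → 0`. This gives the norm continuity for `t > 0` and
the `w*`-continuity at `t = 0`. The convexity of the set of states is used without a unit of `A`
(proved by helper49 with the approximate unit of `A`).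
-/

set_option autoImplicit false

open Set

namespace Pool.Agent.Results.MP_893ae4_an.AbsolutelyContinuousSemigroups

open Pool.Agent.K3h48.QG

universe u v w

theorem result (A : Type u) (R : Type v) (M : Type w) [NonUnitalCStarAlgebra A]
    [NonUnitalCStarAlgebra R] [NonUnitalCStarAlgebra M] (D : Data A R M) (hD : D.IsDual) :
    (D.CoAmenable ↔ ∃ μ : ℝ → A →L[ℂ] ℂ, D.IsSemigroup μ ∧ ∀ t : ℝ, 0 < t → D.InL1 (μ t)) ∧
    (D.CoAmenable → ∃ μ : ℝ → A →L[ℂ] ℂ, D.IsSemigroup μ ∧ (∀ t : ℝ, 0 < t → D.InL1 (μ t)) ∧
      ContinuousOn μ (Ioi 0)) := by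
  have h1 := exists_semigroup hD Pool.Agent.K3h49.QG.t_CONVEX
  refine ⟨⟨fun h => ?_, ?_⟩, h1⟩
  · obtain ⟨μ, h2, h3, -⟩ := h1 h
    exact ⟨μ, h2, h3⟩
  · rintro ⟨μ, h2, h3⟩
    exact coAmenable_of hD h2 h3

end Pool.Agent.Results.MP_893ae4_an.AbsolutelyContinuousSemigroups
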